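import Mathlib
import Pool.Agent.Helper75.CV.Defs
import Pool.Agent.Helper75.CV.P_main

set_option autoImplicit false

namespace Pool.Agent.Results.MP_7252b7_al.NilpotentFormations

open Pool.Agent.Helper75.CV

/-- Local formations `F` of nilpotent groups that involve only finitely many primes or contain the
group of order two: every finite group has an `F`-covering subgroup if and only if `F` is the class
of the trivial groups or the class of all finite `p`-groups for one prime `p`. -/
theorem result (F : GroupClass) (hF : IsFormation F) (hl : IsLocal F)
    (hn : ∀ (G : Type) [Group G], F G → Group.IsNilpotent G)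
    (hfin : {p : ℕ | p.Prime ∧ F (Multiplicative (ZMod p))}.Finite ∨
      F (Multiplicative (ZMod 2))) :
    (∀ (G : Type) [Group G] [Finite G], ∃ H : Subgroup G, IsCovering F H) ↔
      (∀ (G : Type) [Group G], F G ↔ Subsingleton G) ∨
      ∃ p : ℕ, p.Prime ∧ ∀ (G : Type) [Group G], F G ↔ Finite G ∧ IsPGroup p G :=
  main F hF hl hn hfin

end Pool.Agent.Results.MP_7252b7_al.NilpotentFormations
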